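import Pool.Agent.W353.TD.Main
import Pool.Agent.Q5.VL.Tate

/-! The inequality between the defects over several fields, for any finite quotient. -/

set_option autoImplicit false
set_option linter.unusedSectionVars false

namespace Pool.Agent.Q246.TZ

open NumberField IsDedekindDomain Filter Topology Polynomial IntermediateField
open Pool.Agent.W353.EF (IsFrobenius IsEulerSystem LFun size)
open Pool.Agent.W353.TD (IsPart rank tF_sub_le eigenvalues)
open Pool.Agent.W353.TD
open Pool.Agent.W353.NF Pool.Agent.W353.AB Pool.Agent.W353.SN Pool.Agent.W353.PV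
open Pool.Agent.W401.Cheb (GK)
open scoped Classical

/-- **The inequality.** -/
theorem tate_ineq {K : Type} [Field K] [NumberField K] {n d m N : ℕ}
    {X : Set (MvPolynomial (Fin n) (𝓞 K))} {V : Type} [AddCommGroup V] [Module ℚ V]
    [FiniteDimensional ℚ V] {ρ : Representation ℚ Gal(AlgebraicClosure K/K) V} (hmd : m ≤ d)
    (hpart : IsPart X d m N ρ) (U : Subgroup (GK K)) [U.Normal] (hU : IsOpen (U : Set (GK K)))
    {κ : Type} [Fintype κ] (F : κ → IntermediateField K (AlgebraicClosure K))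
    [∀ k, NumberField (F k)] (hker : ∀ k, ∀ u ∈ U, act K (F k) u = 1)
    (B : ∀ k, HeightOneSpectrum (𝓞 (F k)) → ℂ[X])
    (hB : ∀ k, IsEulerSystem X d (2 * m) N (B k)) (c : κ → ℝ) {η : ℝ} (hη : 0 < η) :
    ∀ᶠ ε : ℝ in 𝓝[>] 0, |∑ k, c k * (size (2 * m) (B k) ε - rank ρ (F k))| ≤
      ((N - Module.finrank ℚ V : ℕ) : ℝ) *
        Pool.Agent.W353.L1.avR U (fun q => |∑ k, c k * (fixn K (F k) q.out : ℝ)|) + η := by
  obtain ⟨s, hs⟩ : ∃ s, N - Module.finrank ℚ V = s := ⟨_, rfl⟩
  have hi : 2 * m ≤ 2 * d := by omega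
  have hkap : kap 0 = 1 := by
    unfold kap
    rw [if_pos rfl]
  choose σ hσ using Pool.Agent.W540.BE.exists_isFrob (F := K)
  obtain ⟨hρ, hV⟩ := hpart
  have hgood : ∀ᶠ v in cofinite, |tF X d (2 * m) N K v - ch ρ (σ v)⁻¹| ≤ s := by
    refine hV.mono fun v hv => ?_
    obtain ⟨α, h1, h2⟩ := hv (σ v) (hσ v)
    have h3 := tF_sub_le (ρ := ρ) hi (σ := σ v) h1 h2
    rwa [hs] at h3
  have hrank : ∀ F : IntermediateField K (AlgebraicClosure K),
      rank ρ F = Module.finrank ℚ (inv ρ F.val.fieldRange.fixingSubgroup) := by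
    intro F
    rw [inv_eq, IntermediateField.fieldRange_val]
    rfl
  have hsz : ∀ (F : IntermediateField K (AlgebraicClosure K)) [NumberField F]
      (B : HeightOneSpectrum (𝓞 F) → ℂ[X]) (e : Fin 0 → 𝓞 F), IsEulerSystem X d (2 * m) N B →
      (∀ᶠ ε : ℝ in 𝓝[>] 0, LFun B (((2 * m : ℕ) : ℂ) / 2 + 1 + ε) ≠ 0) ∧
      (syD ρ X d (2 * m) N s σ).IsSize (F := F) e 0
        (fun ε => size (2 * m) B ε - rank ρ F) := by
    intro F _ B e hB
    have h1 := size_X0 hi B hB.1 hB.2 e
    refine ⟨h1.1, ?_⟩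
    rw [hrank]
    exact size_D ρ X d (2 * m) N s σ hσ hgood hρ e _ h1.2 F.val
  have hfin : Finite (GK K ⧸ U) := Subgroup.quotient_finite_of_isOpen _ hU
  have h1 := ineq1 (syD ρ X d (2 * m) N s σ) (syD_real ρ X d (2 * m) N s σ)
      U hU Finset.univ (fun k => F k) (fun k _ u hu => hker k u hu) 0
      (fun k ε => size (2 * m) (B k) ε - rank ρ (F k))
      (fun k _ => (hsz (F k) (B k) (fun _ => 1) (hB k)).2) c hη
  rw [syD_b, hkap, one_mul] at h1
  rw [hs]
  exact h1

/-- the weak form of Tate's conjecture over `F` -/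
def Weak {K : Type} [Field K] [NumberField K] {n : ℕ} (X : Set (MvPolynomial (Fin n) (𝓞 K)))
    (d m N : ℕ) {V : Type} [AddCommGroup V] [Module ℚ V]
    (ρ : Representation ℚ Gal(AlgebraicClosure K/K) V)
    (F : IntermediateField K (AlgebraicClosure K)) [NumberField F] : Prop :=
  ∀ B : HeightOneSpectrum (𝓞 F) → ℂ[X], IsEulerSystem X d (2 * m) N B →
    Tendsto (size (2 * m) B) (𝓝[>] 0) (𝓝 (rank ρ F : ℝ))

section
variable {K : Type} [Field K] [NumberField K] {n d m N : ℕ}
  {X : Set (MvPolynomial (Fin n) (𝓞 K))} {V : Type} [AddCommGroup V] [Module ℚ V]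
  {ρ : Representation ℚ Gal(AlgebraicClosure K/K) V}

/-- the fields of an intermediate field and all its conjugates are fixed by the fixing group of a
normal field above it -/
theorem act_one {F L : IntermediateField K (AlgebraicClosure K)} [NumberField F] [Normal K L]
    (hFL : F ≤ L) : ∀ u ∈ L.fixingSubgroup, act K F u = 1 := by
  intro u hu
  apply Equiv.ext
  intro f
  apply AlgHom.ext
  intro x
  change u (f x) = f x
  refine (IntermediateField.mem_fixingSubgroup_iff _ _).1 hu _ ?_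
  have h1 : f.fieldRange ≤ L := by
    have hF : FiniteDimensional ℚ F := inferInstance
    obtain ⟨g, hg⟩ := act_trans K F F.val f
    rintro _ ⟨y, rfl⟩
    have h2 : g (y : AlgebraicClosure K) = f y := DFunLike.congr_fun hg y
    change f y ∈ L
    rw [← h2]
    have h3 : (y : AlgebraicClosure K) ∈ L := hFL y.2
    have h4 := AlgEquiv.restrictNormal_commutes g L ⟨y, h3⟩
    change _ = g (y : AlgebraicClosure K) at h4
    rw [← h4]
    exact (AlgEquiv.restrictNormal g L ⟨y, h3⟩).2
  exact h1 ⟨x, rfl⟩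

theorem act_bot (u : GK K) : act K (⊥ : IntermediateField K (AlgebraicClosure K)) u = 1 := by
  apply Equiv.ext
  intro f
  apply AlgHom.ext
  intro x
  obtain ⟨y, hy⟩ := IntermediateField.mem_bot.1 x.2
  have hx : x = algebraMap K _ y := Subtype.ext hy.symm
  rw [hx, AlgHom.commutes, AlgHom.commutes]

/-- Euler systems over larger fields -/
theorem exists_sys {F F' : IntermediateField K (AlgebraicClosure K)} [NumberField F]
    [NumberField F'] (hle : F ≤ F') {B : HeightOneSpectrum (𝓞 F) → ℂ[X]} {i : ℕ}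
    (hB : IsEulerSystem X d i N B) :
    ∃ B' : HeightOneSpectrum (𝓞 F') → ℂ[X], IsEulerSystem X d i N B' := by
  let _ : Algebra F F' := (IntermediateField.inclusion hle).toRingHom.toAlgebra
  have : IsScalarTower K F F' := IsScalarTower.of_algebraMap_eq fun x =>
    ((IntermediateField.inclusion hle).commutes x).symm
  exact Pool.Agent.Q5.VL.es_up (Pool.Agent.Q5.VL.es_iff.1 hB).1 F'

/-- **The distance inequality**: if the fields `F k`, `k ∈ κ`, satisfy the weak form -/
theorem dist_ineq [FiniteDimensional ℚ V] (hmd : m ≤ d)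
    (hpart : IsPart X d m N ρ) (U : Subgroup (GK K)) [U.Normal] (hU : IsOpen (U : Set (GK K)))
    [NumberField (⊥ : IntermediateField K (AlgebraicClosure K))]
    {κ : Type} [Fintype κ] (F : κ → IntermediateField K (AlgebraicClosure K))
    [∀ k, NumberField (F k)] (hker : ∀ k, ∀ u ∈ U, act K (F k) u = 1)
    (hW : ∀ k, Weak X d m N ρ (F k)) (c : κ → ℝ)
    {B : HeightOneSpectrum (𝓞 (⊥ : IntermediateField K (AlgebraicClosure K))) → ℂ[X]}
    (hB : IsEulerSystem X d (2 * m) N B) {η : ℝ} (hη : 0 < η) :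
    ∀ᶠ ε : ℝ in 𝓝[>] 0, |size (2 * m) B ε -
      rank ρ (⊥ : IntermediateField K (AlgebraicClosure K))| ≤
      ((N - Module.finrank ℚ V : ℕ) : ℝ) *
        Pool.Agent.W353.L1.avR U (fun q => |1 - ∑ k, c k * (fixn K (F k) q.out : ℝ)|) + η := by
  choose B' hB' using fun k => exists_sys (bot_le : ⊥ ≤ F k) hB
  let F₁ : Option κ → IntermediateField K (AlgebraicClosure K) := fun k => k.elim ⊥ F
  have hnf : ∀ k, NumberField (F₁ k) := by
    rintro (_ | k)
    · exact (inferInstance : NumberField (⊥ : IntermediateField K (AlgebraicClosure K)))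
    · exact (inferInstance : NumberField (F k))
  let c₁ : Option κ → ℝ := fun k => k.elim 1 fun k => - c k
  let B₁ : ∀ k, HeightOneSpectrum (𝓞 (F₁ k)) → ℂ[X] := fun k =>
    match k with
    | none => B
    | some k => B' k
  have h1 := tate_ineq hmd hpart U hU F₁ (by
      rintro (_ | k) u hu
      · exact act_bot u
      · exact hker k u hu) B₁ (by
      rintro (_ | k)
      · exact hB
      · exact hB' k) c₁ (half_pos hη)
  have h2 : Tendsto (fun ε : ℝ => ∑ k, c k * (size (2 * m) (B' k) ε - rank ρ (F k))) (𝓝[>] 0)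
      (𝓝 0) := by
    have h3 : ∀ k ∈ (Finset.univ : Finset κ),
        Tendsto (fun ε : ℝ => c k * (size (2 * m) (B' k) ε - rank ρ (F k))) (𝓝[>] 0) (𝓝 0) := by
      intro k _
      have h4 := ((hW k (B' k) (hB' k)).sub_const (rank ρ (F k) : ℝ)).const_mul (c k)
      rwa [sub_self, mul_zero] at h4
    have h5 := tendsto_finsetSum Finset.univ h3
    rwa [Finset.sum_const_zero] at h5
  have h6 : ∀ q : GK K ⧸ U, |∑ k, c₁ k * (fixn K (F₁ k) q.out : ℝ)| =
      |1 - ∑ k, c k * (fixn K (F k) q.out : ℝ)| := by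
    intro q
    rw [Fintype.sum_option]
    change |1 * (fixn K (⊥ : IntermediateField K (AlgebraicClosure K)) q.out : ℝ) +
      ∑ k, (- c k) * (fixn K (F k) q.out : ℝ)| = _
    rw [Pool.Agent.W353.TD.fixn_bot, Nat.cast_one, mul_one]
    simp only [neg_mul]
    rw [Finset.sum_neg_distrib, sub_eq_add_neg]
  simp only [h6] at h1
  have h7 : ∀ᶠ ε : ℝ in 𝓝[>] 0,
      |∑ k, c k * (size (2 * m) (B' k) ε - rank ρ (F k))| < η / 2 := by
    have h8 := h2.abs
    rw [abs_zero] at h8
    exact h8.eventually_lt_const (half_pos hη)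
  filter_upwards [h1, h7] with ε h8 h9
  rw [Fintype.sum_option] at h8
  change |1 * (size (2 * m) B ε - rank ρ (⊥ : IntermediateField K (AlgebraicClosure K))) +
    ∑ k, (- c k) * (size (2 * m) (B' k) ε - rank ρ (F k))| ≤ _ at h8
  simp only [neg_mul] at h8
  rw [Finset.sum_neg_distrib, one_mul, ← sub_eq_add_neg] at h8
  have h10 : |size (2 * m) B ε - rank ρ (⊥ : IntermediateField K (AlgebraicClosure K))| ≤
      |(size (2 * m) B ε - rank ρ (⊥ : IntermediateField K (AlgebraicClosure K))) -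
        ∑ k, c k * (size (2 * m) (B' k) ε - rank ρ (F k))| +
      |∑ k, c k * (size (2 * m) (B' k) ε - rank ρ (F k))| := by
    have := abs_add_le ((size (2 * m) B ε - rank ρ (⊥ : IntermediateField K (AlgebraicClosure K))) -
        ∑ k, c k * (size (2 * m) (B' k) ε - rank ρ (F k)))
      (∑ k, c k * (size (2 * m) (B' k) ε - rank ρ (F k)))
    rwa [sub_add_cancel] at this
  linarith

end

end Pool.Agent.Q246.TZ
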