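import Pool.Agent.Q246.TZ.Second

/-! Tate's conjecture over linearly disjoint extensions: the bound for the defect. -/

set_option autoImplicit false
set_option linter.unusedSectionVars false

namespace Pool.Agent.Q246.TZ

open NumberField IsDedekindDomain Filter Topology Polynomial
open Pool.Agent.W353.NF
open Pool.Agent.W353.EF (IsEulerSystem size)
open Pool.Agent.W353.TD (IsPart rank)
open Pool.Agent.W353.L1 (avR avR_sq_le avR_const_mul avR_nonneg)
open Pool.Agent.W401.Cheb (GK)
open scoped Classical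

section
variable {K : Type} [Field K] [NumberField K]

/-- a normal field above finitely many fields -/
theorem exists_normal {κ : Type} [Finite κ] (F : κ → IntermediateField K (AlgebraicClosure K))
    (hF : ∀ k, FiniteDimensional K (F k)) :
    ∃ L : IntermediateField K (AlgebraicClosure K), FiniteDimensional K L ∧ Normal K L ∧
      ∀ k, F k ≤ L := by
  let L : IntermediateField K (AlgebraicClosure K) :=
    ⨆ k, IntermediateField.normalClosure K (F k) (AlgebraicClosure K)
  refine ⟨L, ?_, ?_, fun k => ?_⟩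
  · have : ∀ k, FiniteDimensional K
      (IntermediateField.normalClosure K (F k) (AlgebraicClosure K)) := fun k => inferInstance
    exact IntermediateField.finiteDimensional_iSup_of_finite
  · have : ∀ k, Normal K (IntermediateField.normalClosure K (F k) (AlgebraicClosure K)) :=
      fun k => inferInstance
    exact IntermediateField.normal_iSup K (AlgebraicClosure K) _
  · exact (IntermediateField.le_normalClosure (F k)).trans
      (le_iSup (fun k => IntermediateField.normalClosure K (F k) (AlgebraicClosure K)) k)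

theorem normal_fix (L : IntermediateField K (AlgebraicClosure K)) [Normal K L] :
    L.fixingSubgroup.Normal := by
  have : IsGalois K L := {}
  exact inferInstance

variable {U : Subgroup (GK K)} [U.Normal] [Finite (GK K ⧸ U)]

/-- the second moment -/
theorem moment {κ : Type} [Fintype κ] (F : κ → IntermediateField K (AlgebraicClosure K))
    [∀ k, NumberField (F k)] (hker : ∀ k, ∀ u ∈ U, act K (F k) u = 1)
    (hdis : ∀ k l, k ≠ l → (F k).LinearDisjoint (F l)) (b : κ → ℝ) :
    avR U (fun q => (1 - ∑ k, b k * (fixn K (F k) q.out : ℝ)) ^ 2) ≤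
      (1 - ∑ k, b k) ^ 2 + ∑ k, b k ^ 2 * ((Module.finrank K (F k) : ℝ) - 1) := by
  have h1 : (fun q : GK K ⧸ U => (1 - ∑ k, b k * (fixn K (F k) q.out : ℝ)) ^ 2) =
      fun q => 1 + (∑ k, (-2 * b k) * (fixn K (F k) q.out : ℝ) +
        ∑ k, ∑ l, (b k * b l) * ((fixn K (F k) q.out : ℝ) * fixn K (F l) q.out)) := by
    funext q
    have e1 : ∑ k, (-2 * b k) * (fixn K (F k) q.out : ℝ) =
        -2 * ∑ k, b k * (fixn K (F k) q.out : ℝ) := by
      rw [Finset.mul_sum]
      exact Finset.sum_congr rfl fun k _ => by ring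
    have e2 : ∑ k, ∑ l, (b k * b l) * ((fixn K (F k) q.out : ℝ) * fixn K (F l) q.out) =
        (∑ k, b k * (fixn K (F k) q.out : ℝ)) * ∑ l, b l * (fixn K (F l) q.out : ℝ) := by
      rw [Finset.sum_mul_sum]
      exact Finset.sum_congr rfl fun k _ => Finset.sum_congr rfl fun l _ => by ring
    rw [e1, e2]
    ring
  rw [h1, avR_add (fun _ => 1), avR_one, avR_add, avR_sum, avR_sum]
  have h2 : ∀ k, avR U (fun q => (-2 * b k) * (fixn K (F k) q.out : ℝ)) = -2 * b k := by
    intro k
    rw [avR_const_mul, avR_fixn (hker k), mul_one]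
  have h3 : ∀ k, avR U (fun q => ∑ l, (b k * b l) *
      ((fixn K (F k) q.out : ℝ) * fixn K (F l) q.out)) ≤
      b k * ∑ l, b l + b k ^ 2 * ((Module.finrank K (F k) : ℝ) - 1) := by
    intro k
    rw [avR_sum]
    have h4 : ∀ l, avR U (fun q => (b k * b l) *
        ((fixn K (F k) q.out : ℝ) * fixn K (F l) q.out)) ≤
        b k * b l + (if l = k then b k ^ 2 * ((Module.finrank K (F k) : ℝ) - 1) else 0) := by
      intro l
      rw [avR_const_mul]
      by_cases hkl : l = k
      · subst hkl
        rw [if_pos rfl]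
        have h5 := avR_sq (hker l)
        have h6 : 0 ≤ b l * b l := mul_self_nonneg _
        have h7 := mul_le_mul_of_nonneg_left h5 h6
        calc b l * b l * avR U (fun q => (fixn K (F l) q.out : ℝ) * fixn K (F l) q.out) ≤
            b l * b l * (Module.finrank K (F l) : ℝ) := h7
          _ = _ := by ring
      · rw [if_neg hkl, add_zero, avR_pair (hker k) (hker l)
          (fun x y x' y' => trans_pair (hdis k l (Ne.symm hkl)) x y x' y'), mul_one]
    refine (Finset.sum_le_sum fun l _ => h4 l).trans (le_of_eq ?_)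
    rw [Finset.sum_add_distrib, Finset.sum_ite_eq' Finset.univ k, if_pos (Finset.mem_univ k),
      Finset.mul_sum]
  simp only [h2]
  have h8 := Finset.sum_le_sum fun k (_ : k ∈ Finset.univ) => h3 k
  rw [Finset.sum_add_distrib, ← Finset.sum_mul] at h8
  rw [← Finset.mul_sum]
  calc _ ≤ 1 + (-2 * ∑ k, b k + ((∑ k, b k) * ∑ l, b l +
      ∑ k, b k ^ 2 * ((Module.finrank K (F k) : ℝ) - 1))) := by linarith
    _ = _ := by ring

/-- the sum of the `1 / (d - 1)` -/
noncomputable def sumInv {κ : Type} [Fintype κ]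
    (F : κ → IntermediateField K (AlgebraicClosure K)) : ℝ :=
  ∑ k, 1 / ((Module.finrank K (F k) : ℝ) - 1)

theorem mean_le {κ : Type} [Fintype κ] (F : κ → IntermediateField K (AlgebraicClosure K))
    [∀ k, NumberField (F k)] (hker : ∀ k, ∀ u ∈ U, act K (F k) u = 1)
    (hdis : ∀ k l, k ≠ l → (F k).LinearDisjoint (F l)) (hd : ∀ k, 2 ≤ Module.finrank K (F k)) :
    ∃ b : κ → ℝ, avR U (fun q => |1 - ∑ k, b k * (fixn K (F k) q.out : ℝ)|) ≤
      1 / √(1 + sumInv F) := by
  have hd' : ∀ k, (0 : ℝ) < (Module.finrank K (F k) : ℝ) - 1 := by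
    intro k
    have : (2 : ℝ) ≤ Module.finrank K (F k) := by exact_mod_cast hd k
    linarith
  have hA : 0 ≤ sumInv F := Finset.sum_nonneg fun k _ => by
    have := hd' k
    positivity
  set A := sumInv F with hAdef
  refine ⟨fun k => (1 + A)⁻¹ * (1 / ((Module.finrank K (F k) : ℝ) - 1)), ?_⟩
  have h1 := avR_sq_le U (fun q => |1 - ∑ k, ((1 + A)⁻¹ *
    (1 / ((Module.finrank K (F k) : ℝ) - 1))) * (fixn K (F k) q.out : ℝ)|)
  simp only [sq_abs] at h1
  have h2 := moment F hker hdis (fun k => (1 + A)⁻¹ * (1 / ((Module.finrank K (F k) : ℝ) - 1)))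
  have h3 : ∑ k, (1 + A)⁻¹ * (1 / ((Module.finrank K (F k) : ℝ) - 1)) = (1 + A)⁻¹ * A := by
    rw [← Finset.mul_sum]
    rfl
  have h4 : ∑ k, ((1 + A)⁻¹ * (1 / ((Module.finrank K (F k) : ℝ) - 1))) ^ 2 *
      ((Module.finrank K (F k) : ℝ) - 1) = (1 + A)⁻¹ ^ 2 * A := by
    have h5 : A = ∑ k, 1 / ((Module.finrank K (F k) : ℝ) - 1) := rfl
    conv_rhs => rw [h5]
    rw [Finset.mul_sum, ← h5]
    refine Finset.sum_congr rfl fun k _ => ?_
    have := (hd' k).ne'
    field_simp
  rw [h3, h4] at h2
  have h6 : (1 - (1 + A)⁻¹ * A) ^ 2 + (1 + A)⁻¹ ^ 2 * A = (1 + A)⁻¹ := by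
    have : (1 + A) ≠ 0 := by positivity
    field_simp
    ring
  rw [h6] at h2
  have h7 := h1.trans h2
  rw [one_div, ← Real.sqrt_inv]
  exact Real.le_sqrt_of_sq_le h7

end

section
variable {K : Type} [Field K] [NumberField K] {n d m N : ℕ}
  {X : Set (MvPolynomial (Fin n) (𝓞 K))} {V : Type} [AddCommGroup V] [Module ℚ V]
  [FiniteDimensional ℚ V] {ρ : Representation ℚ Gal(AlgebraicClosure K/K) V}

/-- **Finitely many linearly disjoint extensions.** -/
theorem disj_bound (hmd : m ≤ d) (hpart : IsPart X d m N ρ)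
    [NumberField (⊥ : IntermediateField K (AlgebraicClosure K))]
    {κ : Type} [Fintype κ] (F : κ → IntermediateField K (AlgebraicClosure K))
    [∀ k, NumberField (F k)] (hdis : ∀ k l, k ≠ l → (F k).LinearDisjoint (F l))
    (hd : ∀ k, 2 ≤ Module.finrank K (F k)) (hW : ∀ k, Weak X d m N ρ (F k))
    {B : HeightOneSpectrum (𝓞 (⊥ : IntermediateField K (AlgebraicClosure K))) → ℂ[X]}
    (hB : IsEulerSystem X d (2 * m) N B) {η : ℝ} (hη : 0 < η) :
    ∀ᶠ ε : ℝ in 𝓝[>] 0, |size (2 * m) B ε -
      rank ρ (⊥ : IntermediateField K (AlgebraicClosure K))| ≤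
      ((N - Module.finrank ℚ V : ℕ) : ℝ) * (1 / √(1 + sumInv F)) + η := by
  obtain ⟨L, hL, hLn, hle⟩ := exists_normal F fun k => inferInstance
  have hn := normal_fix L
  have hopen : IsOpen (L.fixingSubgroup : Set (GK K)) := L.fixingSubgroup_isOpen
  have hfin : Finite (GK K ⧸ L.fixingSubgroup) := Subgroup.quotient_finite_of_isOpen _ hopen
  have hker : ∀ k, ∀ u ∈ L.fixingSubgroup, act K (F k) u = 1 := fun k => act_one (hle k)
  obtain ⟨b, hb⟩ := mean_le (U := L.fixingSubgroup) F hker hdis hd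
  filter_upwards [dist_ineq hmd hpart L.fixingSubgroup hopen F hker hW b hB hη] with ε hε
  refine hε.trans ?_
  have := mul_le_mul_of_nonneg_left hb
    (Nat.cast_nonneg (N - Module.finrank ℚ V) : (0 : ℝ) ≤ _)
  linarith

end

end Pool.Agent.Q246.TZ
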