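import Pool.Agent.Q246.TZ.Disj
import Pool.Agent.Q246.RP.Rel

/-! Tate's conjecture and families of fields closed under enlarging. -/

set_option autoImplicit false
set_option linter.unusedSectionVars false

namespace Pool.Agent.Q246.TZ

open NumberField IsDedekindDomain Filter Topology Polynomial
open Pool.Agent.W353.NF
open Pool.Agent.W353.EF (IsEulerSystem size)
open Pool.Agent.W353.TD (IsPart rank)
open Pool.Agent.W353.L1 (avR)
open Pool.Agent.W401.Cheb (GK)
open Pool.Agent.Q5.BR (card_fixed)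
open Pool.Agent.Q5.HR (cj card_mul_fix exists_extension fixn_congr)
open Pool.Agent.Q246.RP (artinS)
open scoped Classical

section
variable {G : Type} [Group G]

/-- the conjugate subgroup -/
def cg (x : G) (B : Subgroup G) : Subgroup G := B.map (MulAut.conj x).toMonoidHom

theorem mem_cg {x g : G} {B : Subgroup G} : g ∈ cg x B ↔ x⁻¹ * g * x ∈ B := by
  unfold cg
  rw [Subgroup.mem_map]
  constructor
  · rintro ⟨b, hb, rfl⟩
    have : x⁻¹ * (MulAut.conj x).toMonoidHom b * x = b := by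
      change x⁻¹ * (x * b * x⁻¹) * x = b
      group
    rwa [this]
  · intro h
    refine ⟨_, h, ?_⟩
    change x * (x⁻¹ * g * x) * x⁻¹ = g
    group

theorem cg_mono {x : G} {B C : Subgroup G} (h : B ≤ C) : cg x B ≤ cg x C :=
  Subgroup.map_mono h

theorem cg_cg (x y : G) (B : Subgroup G) : cg x (cg y B) = cg (x * y) B := by
  ext g
  rw [mem_cg, mem_cg, mem_cg]
  have : y⁻¹ * (x⁻¹ * g * x) * y = (x * y)⁻¹ * g * (x * y) := by group
  rw [this]

theorem cg_one (B : Subgroup G) : cg 1 B = B := by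
  ext g
  rw [mem_cg, inv_one, one_mul, mul_one]

theorem cg_zpowers (x g : G) : cg x (Subgroup.zpowers g) = Subgroup.zpowers (x * g * x⁻¹) := by
  unfold cg
  rw [MonoidHom.map_zpowers]
  rfl

theorem card_cg [Finite G] (x : G) (B : Subgroup G) : Nat.card (cg x B) = Nat.card B :=
  Nat.card_congr
    { toFun := fun g => ⟨x⁻¹ * g.1 * x, mem_cg.1 g.2⟩
      invFun := fun b => ⟨x * b.1 * x⁻¹, mem_cg.2 (by
        have : x⁻¹ * (x * b.1 * x⁻¹) * x = b.1 := by group
        rw [this]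
        exact b.2)⟩
      left_inv := fun g => Subtype.ext (by group)
      right_inv := fun b => Subtype.ext (by group) }

theorem cj_cg [Finite G] (x : G) (B : Subgroup G) (g : G) : cj (cg x B) g = cj B g := by
  unfold cj
  refine Nat.card_congr
    { toFun := fun y => ⟨y.1 * x, by
        have h1 := mem_cg.1 y.2
        have h2 : (y.1 * x)⁻¹ * g * (y.1 * x) = x⁻¹ * (y.1⁻¹ * g * y.1) * x := by group
        rw [h2]
        exact h1⟩
      invFun := fun y => ⟨y.1 * x⁻¹, by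
        rw [mem_cg]
        have h2 : x⁻¹ * ((y.1 * x⁻¹)⁻¹ * g * (y.1 * x⁻¹)) * x = y.1⁻¹ * g * y.1 := by group
        rw [h2]
        exact y.2⟩
      left_inv := fun g => Subtype.ext (by group)
      right_inv := fun b => Subtype.ext (by group) }

end

section
variable {K : Type} [Field K] [NumberField K]

/-- closed under passing to larger finite extensions -/
def Up (𝓕 : Set (IntermediateField K (AlgebraicClosure K))) : Prop :=
  (∀ F ∈ 𝓕, FiniteDimensional K F) ∧
  ∀ F ∈ 𝓕, ∀ F' : IntermediateField K (AlgebraicClosure K), FiniteDimensional K F' → F ≤ F' →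
    F' ∈ 𝓕

/-- the automorphisms of `L` which fix no member of the family contained in `L` -/
def Missed (𝓕 : Set (IntermediateField K (AlgebraicClosure K)))
    (L : IntermediateField K (AlgebraicClosure K)) : Set (L ≃ₐ[K] L) :=
  {σ | ∀ F ∈ 𝓕, F ≤ L → ∃ x : L, (x : AlgebraicClosure K) ∈ F ∧ σ x ≠ x}

theorem fam_relation {𝓕 : Set (IntermediateField K (AlgebraicClosure K))} (hF : Up 𝓕)
    (L : IntermediateField K (AlgebraicClosure K)) [FiniteDimensional K L] [Normal K L] :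
    ∃ (κ : Type) (_ : Fintype κ) (E : κ → IntermediateField K (AlgebraicClosure K)) (c : κ → ℝ),
      (∀ j, E j ∈ 𝓕 ∧ E j ≤ L) ∧
      ∀ σ : GK K, |1 - ∑ j, c j * (fixn K (E j) σ : ℝ)| ≤
        if AlgEquiv.restrictNormalHom L σ ∈ Missed 𝓕 L then 1 else 0 := by
  have : IsGalois K L := {}
  have : Fintype (Subgroup (L ≃ₐ[K] L)) := Fintype.ofFinite _
  let fld : Subgroup (L ≃ₐ[K] L) → IntermediateField K (AlgebraicClosure K) := fun B =>
    IntermediateField.lift (IntermediateField.fixedField B)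
  have hfdl : ∀ B, FiniteDimensional K (fld B) := fun B =>
    LinearEquiv.finiteDimensional
      (IntermediateField.liftAlgEquiv (IntermediateField.fixedField B)).toLinearEquiv
  have hle : ∀ B, fld B ≤ L := fun B => IntermediateField.lift_le _
  have hmono : ∀ B C : Subgroup (L ≃ₐ[K] L), B ≤ C → fld C ≤ fld B := by
    intro B C hBC x hx
    have hxN : x ∈ L := IntermediateField.lift_le _ hx
    have h1 : (⟨x, hxN⟩ : L) ∈ IntermediateField.fixedField C :=
      (IntermediateField.mem_lift ⟨x, hxN⟩).1 hx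
    refine (IntermediateField.mem_lift ⟨x, hxN⟩).2 ?_
    rw [IntermediateField.mem_fixedField_iff] at h1 ⊢
    exact fun g hg => h1 g (hBC hg)
  let 𝒮 : Set (Subgroup (L ≃ₐ[K] L)) := {B | ∃ x, fld (cg x B) ∈ 𝓕}
  have hdown : ∀ C ∈ 𝒮, ∀ B ≤ C, B ∈ 𝒮 := by
    rintro C ⟨x, hx⟩ B hBC
    exact ⟨x, hF.2 _ hx _ (hfdl _) (hmono _ _ (cg_mono hBC))⟩
  have hconj : ∀ (x : L ≃ₐ[K] L) (B : Subgroup (L ≃ₐ[K] L)), cg x B ∈ 𝒮 → B ∈ 𝒮 := by
    rintro x B ⟨y, hy⟩
    rw [cg_cg] at hy
    exact ⟨_, hy⟩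
  let xx : Subgroup (L ≃ₐ[K] L) → (L ≃ₐ[K] L) := fun B => if h : B ∈ 𝒮 then h.choose else 1
  have hxx : ∀ B ∈ 𝒮, fld (cg (xx B) B) ∈ 𝓕 := by
    intro B hB
    have : xx B = hB.choose := dif_pos hB
    rw [this]
    exact hB.choose_spec
  let φ : (L ≃ₐ[K] L) → ℤ := fun g => if Subgroup.zpowers g ∈ 𝒮 then 1 else 0
  have hφ : ∀ g h x : L ≃ₐ[K] L, Subgroup.zpowers (x⁻¹ * g * x) = Subgroup.zpowers h →
      φ g = φ h := by
    intro g h x hx
    have h1 : Subgroup.zpowers g ∈ 𝒮 ↔ Subgroup.zpowers h ∈ 𝒮 := by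
      have h2 : cg x⁻¹ (Subgroup.zpowers g) = Subgroup.zpowers h := by
        rw [cg_zpowers, inv_inv, hx]
      have h3 : cg x (Subgroup.zpowers h) = Subgroup.zpowers g := by
        rw [← h2, cg_cg, mul_inv_cancel, cg_one]
      constructor
      · intro h4
        rw [← h3] at h4
        exact hconj _ _ h4
      · intro h4
        rw [← h2] at h4
        exact hconj _ _ h4
    change (if Subgroup.zpowers g ∈ 𝒮 then (1 : ℤ) else 0) =
      if Subgroup.zpowers h ∈ 𝒮 then 1 else 0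
    simp only [h1]
  have hS : ∀ g, φ g ≠ 0 → Subgroup.zpowers g ∈ 𝒮 := by
    intro g hg
    by_contra h
    exact hg (if_neg h)
  obtain ⟨n, hn, hn'⟩ := artinS (G := L ≃ₐ[K] L) (𝒮 := 𝒮) hdown (fix := fun B g =>
    (Nat.card {i : IntermediateField.fixedField (cg (xx B) B) →ₐ[K] L //
      (g : L →ₐ[K] L).comp i = i} : ℤ))
    (fun B g => by
      have h := card_mul_fix (cg (xx B) B) g
      rw [card_cg, cj_cg] at h
      exact_mod_cast h) φ hφ hS
  have hrange : ∀ B : Subgroup (L ≃ₐ[K] L), ∀ i : IntermediateField.fixedField B →ₐ[K]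
      AlgebraicClosure K, i.fieldRange ≤ L := by
    rintro B i _ ⟨z, rfl⟩
    obtain ⟨f, hf⟩ := exists_extension (N := L) i
    have h2 : f.fieldRange = L := AlgHom.fieldRange_of_normal f
    change i z ∈ L
    have h3 : i z ∈ f.fieldRange := ⟨_, hf z⟩
    exact h2.le h3
  have hcG : (0 : ℝ) < Nat.card (L ≃ₐ[K] L) := by exact_mod_cast Nat.card_pos
  refine ⟨{B : Subgroup (L ≃ₐ[K] L) // n B ≠ 0}, inferInstance,
    fun B => fld (cg (xx B.1) B.1), fun B => n B.1 / Nat.card (L ≃ₐ[K] L),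
    fun B => ⟨hxx B.1 (hn B.1 B.2), hle _⟩, fun σ => ?_⟩
  have h1 : ∀ B : Subgroup (L ≃ₐ[K] L),
      (fixn K (fld (cg (xx B) B)) σ : ℤ) =
      (Nat.card {i : IntermediateField.fixedField (cg (xx B) B) →ₐ[K] L //
        ((AlgEquiv.restrictNormal σ L : L ≃ₐ[K] L) : L →ₐ[K] L).comp i = i} : ℤ) := by
    intro B
    rw [← fixn_congr (IntermediateField.liftAlgEquiv (IntermediateField.fixedField
      (cg (xx B) B))) σ, card_fixed (IntermediateField.fixedField (cg (xx B) B)) L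
      (hrange _) σ]
  have h2 : ∑ j : {B : Subgroup (L ≃ₐ[K] L) // n B ≠ 0},
      (n j.1 / (Nat.card (L ≃ₐ[K] L) : ℝ)) * (fixn K (fld (cg (xx j.1) j.1)) σ : ℝ) =
      (φ (AlgEquiv.restrictNormal σ L) : ℝ) := by
    have h3 := hn' (AlgEquiv.restrictNormal σ L)
    have h4 : ∑ j : {B : Subgroup (L ≃ₐ[K] L) // n B ≠ 0},
        n j.1 * (fixn K (fld (cg (xx j.1) j.1)) σ : ℤ) =
        Nat.card (L ≃ₐ[K] L) * φ (AlgEquiv.restrictNormal σ L) := by
      rw [← h3]
      have h5 : ∀ B : Subgroup (L ≃ₐ[K] L), B ∈ Finset.univ.filter (fun B => n B ≠ 0) ↔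
          n B ≠ 0 := by
        intro B
        simp
      rw [← Finset.sum_subtype (Finset.univ.filter (fun B => n B ≠ 0)) h5
        (fun B => n B * (fixn K (fld (cg (xx B) B)) σ : ℤ)), Finset.sum_filter_of_ne]
      · exact Finset.sum_congr rfl fun B _ => by rw [h1]
      · intro B _ hB h6
        apply hB
        rw [h6, zero_mul]
    have h5 : ∑ j : {B : Subgroup (L ≃ₐ[K] L) // n B ≠ 0},
        (n j.1 / (Nat.card (L ≃ₐ[K] L) : ℝ)) * (fixn K (fld (cg (xx j.1) j.1)) σ : ℝ) =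
        (Nat.card (L ≃ₐ[K] L) : ℝ)⁻¹ * (((∑ j : {B : Subgroup (L ≃ₐ[K] L) // n B ≠ 0},
        n j.1 * (fixn K (fld (cg (xx j.1) j.1)) σ : ℤ) : ℤ)) : ℝ) := by
      push_cast
      rw [Finset.mul_sum]
      exact Finset.sum_congr rfl fun j _ => by ring
    rw [h5, h4]
    push_cast
    rw [← mul_assoc, inv_mul_cancel₀ hcG.ne', one_mul]
  rw [h2]
  change |1 - (((if Subgroup.zpowers (AlgEquiv.restrictNormal σ L) ∈ 𝒮 then (1 : ℤ) else 0) : ℤ) :
    ℝ)| ≤ _
  by_cases h6 : Subgroup.zpowers (AlgEquiv.restrictNormal σ L) ∈ 𝒮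
  · rw [if_pos h6, Int.cast_one, sub_self, abs_zero]
    split_ifs <;> norm_num
  · rw [if_neg h6, Int.cast_zero, sub_zero, abs_one]
    rw [if_pos]
    intro F hFm hFL
    by_contra hcon
    push Not at hcon
    apply h6
    refine ⟨1, ?_⟩
    rw [cg_one]
    refine hF.2 F hFm _ (hfdl _) ?_
    intro x hx
    refine (IntermediateField.mem_lift ⟨x, hFL hx⟩).2 ?_
    rw [IntermediateField.mem_fixedField_iff]
    have h7 : (AlgEquiv.restrictNormal σ L) ∈
        MulAction.stabilizer (L ≃ₐ[K] L) (⟨x, hFL hx⟩ : L) := hcon ⟨x, hFL hx⟩ hx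
    rintro _ ⟨k, rfl⟩
    exact Subgroup.zpow_mem _ h7 k

end

end Pool.Agent.Q246.TZ
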