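import Pool.Agent.Q246.TZ.Quad

/-! Orders of the continuations. -/

set_option autoImplicit false
set_option linter.unusedSectionVars false

namespace Pool.Agent.Q246.TZ

open NumberField IsDedekindDomain Filter Topology Polynomial
open Pool.Agent.W353.EF (IsFrobenius LFun size IsEulerSystem)
open Pool.Agent.Q5.VL

section
variable {F : Type} [Field F] [NumberField F]

/-- the order of a continuation and the size -/
theorem order_int {K₀ : Type} [Field K₀] [Algebra K₀ F] {n : ℕ}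
    {X : Set (MvPolynomial (Fin n) (𝓞 K₀))} {d i N : ℕ} {B : HeightOneSpectrum (𝓞 F) → ℂ[X]}
    (hB : IsEulerSystem X d i N B) {Λ : ℂ → ℂ}
    (hΛ : MeromorphicAt Λ ((i : ℂ) / 2 + 1))
    (hΛ' : ∀ᶠ s in 𝓝 ((i : ℂ) / 2 + 1), (i : ℝ) / 2 + 1 < s.re → Λ s = LFun B s) :
    ∃ k : ℤ, meromorphicOrderAt Λ ((i : ℂ) / 2 + 1) = k ∧
      Tendsto (size i B) (𝓝[>] 0) (𝓝 (-(k : ℝ))) := by
  have hne : meromorphicOrderAt Λ ((i : ℂ) / 2 + 1) ≠ ⊤ := by
    intro htop
    have h1 := meromorphicOrderAt_eq_top_iff.1 htop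
    have h2 : Tendsto (fun ε : ℝ => (i : ℂ) / 2 + 1 + (ε : ℂ)) (𝓝[>] 0) (𝓝[≠] ((i : ℂ) / 2 + 1)) := by
      rw [tendsto_nhdsWithin_iff]
      constructor
      · have h2 : Continuous fun ε : ℝ => (i : ℂ) / 2 + 1 + (ε : ℂ) := by fun_prop
        have h3 := h2.tendsto 0
        simp only [Complex.ofReal_zero, add_zero] at h3
        exact h3.mono_left nhdsWithin_le_nhds
      · filter_upwards [self_mem_nhdsWithin] with ε hε
        have hε' : (0 : ℝ) < ε := hε
        simp [hε'.ne']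
    have h5 : ∀ᶠ s in 𝓝[{s : ℂ | (i : ℝ) / 2 + 1 < s.re}] (ed i), Λ s = LFun B s ∧ Good B s := by
      have h2' : ∀ᶠ s in 𝓝 (ed i), (i : ℝ) / 2 + 1 < s.re → Λ s = LFun B s := hΛ'
      filter_upwards [nhdsWithin_le_nhds h2', nhdsWithin_le_nhds (es_good hB),
        self_mem_nhdsWithin] with s a b c
      exact ⟨a c, b c⟩
    obtain ⟨ε, h6, h7⟩ := ((h2.eventually h1).and ((tends_ed i).eventually h5)).exists
    rw [h7.1] at h6
    exact h7.2.ne_zero h6
  obtain ⟨k, hk⟩ := WithTop.ne_top_iff_exists.1 hne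
  refine ⟨k, hk.symm, ?_⟩
  have h1 : PowH i B 1 k := ⟨Λ, hΛ, by simpa using hΛ', hk.symm⟩
  have h2 := h1.size
  simp only [Int.cast_one, one_mul] at h2
  exact h2

end

end Pool.Agent.Q246.TZ
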