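import Pool.Agent.Q246.TZ.Ord

/-! The proportion of the missed automorphisms, in terms of the absolute Galois group. -/

set_option autoImplicit false
set_option linter.unusedSectionVars false

namespace Pool.Agent.Q246.TZ

open NumberField
open Pool.Agent.W401.Cheb (GK)
open scoped Classical

theorem card_image_mk {G H : Type} [Group G] [Group H] (Φ : G →* H)
    (hs : Function.Surjective Φ) (U : Subgroup G) (hU : Φ.ker = U) (T : Set H) :
    Nat.card ((QuotientGroup.mk : G → G ⧸ U) '' (Φ ⁻¹' T)) = Nat.card T := by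
  subst hU
  refine Nat.card_congr (Equiv.ofBijective
    (fun q => ⟨QuotientGroup.kerLift Φ q.1, ?_⟩) ⟨?_, ?_⟩)
  · obtain ⟨_, g, hg, rfl⟩ := q
    exact hg
  · intro a b h
    exact Subtype.ext (QuotientGroup.kerLift_injective Φ (congrArg Subtype.val h))
  · rintro ⟨t, ht⟩
    obtain ⟨g, rfl⟩ := hs t
    exact ⟨⟨(g : G ⧸ Φ.ker), g, ht, rfl⟩, rfl⟩

variable {K : Type} [Field K] [NumberField K]

/-- the missed automorphisms of the algebraic closure -/
def MissedG (𝓕 : Set (IntermediateField K (AlgebraicClosure K)))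
    (L : IntermediateField K (AlgebraicClosure K)) : Set (GK K) :=
  {σ | ∀ F ∈ 𝓕, F ≤ L → ¬ ∀ x ∈ F, σ x = x}

theorem missed_eq (𝓕 : Set (IntermediateField K (AlgebraicClosure K)))
    (L : IntermediateField K (AlgebraicClosure K)) [Normal K L] :
    MissedG 𝓕 L = (AlgEquiv.restrictNormalHom L : GK K →* (L ≃ₐ[K] L)) ⁻¹' Missed 𝓕 L := by
  ext σ
  have key : ∀ x : L, (AlgEquiv.restrictNormalHom L σ) x = x ↔
      σ (x : AlgebraicClosure K) = x := by
    intro x
    have h1 := AlgEquiv.restrictNormal_commutes σ L x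
    constructor
    · intro h
      have h2 : (AlgEquiv.restrictNormal σ L) x = x := h
      rw [h2] at h1
      exact h1.symm
    · intro h
      apply (algebraMap L (AlgebraicClosure K)).injective
      exact h1.trans h
  constructor
  · intro h F hF hFL
    have h1 := h F hF hFL
    push Not at h1
    obtain ⟨x, hx, hx'⟩ := h1
    exact ⟨⟨x, hFL hx⟩, hx, fun h2 => hx' ((key _).1 h2)⟩
  · intro h F hF hFL hcon
    obtain ⟨x, hx, hx'⟩ := h F hF hFL
    exact hx' ((key x).2 (hcon _ hx))

/-- the proportion -/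
theorem missed_ratio (𝓕 : Set (IntermediateField K (AlgebraicClosure K)))
    (L : IntermediateField K (AlgebraicClosure K)) [FiniteDimensional K L] [Normal K L] :
    (Nat.card ((QuotientGroup.mk : GK K → GK K ⧸ L.fixingSubgroup) '' MissedG 𝓕 L) : ℝ) /
      Module.finrank K L = (Nat.card (Missed 𝓕 L) : ℝ) / Nat.card (L ≃ₐ[K] L) := by
  have : IsGalois K L := {}
  rw [missed_eq, card_image_mk (AlgEquiv.restrictNormalHom L : GK K →* (L ≃ₐ[K] L))
    (AlgEquiv.restrictNormalHom_surjective (AlgebraicClosure K)) _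
    (IntermediateField.restrictNormalHom_ker L), IsGalois.card_aut_eq_finrank]

end Pool.Agent.Q246.TZ
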