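import Pool.Agent.Q246.TZ.Seq
import Pool.Agent.Q5.HR.Sq

/-! Totally complex quadratic extensions of a number field. -/

set_option autoImplicit false
set_option linter.unusedSectionVars false

namespace Pool.Agent.Q246.TZ

open NumberField IntermediateField
open scoped Classical

/-- a number field does not contain the square roots of all `-p` -/
theorem exists_prime_not_sq (N : Type) [Field N] [NumberField N] :
    ∃ p : ℕ, p.Prime ∧ ¬ ∃ y : N, y ^ 2 = -(p : N) := by
  by_contra hcon
  push Not at hcon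
  let e : N →ₐ[ℚ] AlgebraicClosure ℚ := IsAlgClosed.lift
  have hfd : FiniteDimensional ℚ e.fieldRange :=
    LinearEquiv.finiteDimensional (AlgEquiv.ofInjectiveField e).toLinearEquiv
  obtain ⟨D, hD, -, hD'⟩ := Pool.Agent.Q5.HR.finite_classes e.fieldRange
  have key : ∀ p : Nat.Primes, ∃ d ∈ D, ∃ c : ℚ, -((p : ℕ) : ℚ) = d * c ^ 2 := by
    intro p
    obtain ⟨y, hy⟩ := hcon p p.2
    refine hD' _ (neg_ne_zero.2 (by exact_mod_cast p.2.ne_zero)) ⟨e y, ⟨y, rfl⟩, ?_⟩
    rw [← map_pow, hy]
    simp
  choose f hf c hc using key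
  have hfin : Finite D := hD
  obtain ⟨p, q, hpq, hfpq⟩ := Finite.exists_ne_map_eq_of_infinite
    (fun p : Nat.Primes => (⟨f p, hf p⟩ : D))
  have h1 : f p = f q := congrArg Subtype.val hfpq
  have h2 : IsSquare (((p : ℕ) : ℚ) * ((q : ℕ) : ℚ)) := by
    refine ⟨f p * c p * c q, ?_⟩
    have h3 := hc p
    have h4 := hc q
    rw [← h1] at h4
    have : ((p : ℕ) : ℚ) * ((q : ℕ) : ℚ) = (-((p : ℕ) : ℚ)) * (-((q : ℕ) : ℚ)) := by ring
    rw [this, h3, h4]
    ring
  have h3 : IsSquare ((p : ℕ) * (q : ℕ)) := by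
    have h4 : IsSquare ((((p : ℕ) * (q : ℕ) : ℕ)) : ℚ) := by exact_mod_cast h2
    rwa [Rat.isSquare_natCast_iff] at h4
  obtain ⟨r, hr⟩ := h3
  have h5 : (p : ℕ) ∣ r := by
    have : (p : ℕ) ∣ r * r := by rw [← hr]; exact dvd_mul_right _ _
    exact (p.2.dvd_mul.1 this).elim id id
  have h6 : (q : ℕ) ∣ r := by
    have : (q : ℕ) ∣ r * r := by rw [← hr]; exact dvd_mul_left _ _
    exact (q.2.dvd_mul.1 this).elim id id
  have hne : (p : ℕ) ≠ q := fun h => hpq (Subtype.ext h)
  have h7 : (p : ℕ) * q ∣ r :=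
    ((Nat.coprime_primes p.2 q.2).2 hne).mul_dvd_of_dvd_of_dvd h5 h6
  have hr0 : 0 < r := by
    rcases Nat.eq_zero_or_pos r with h | h
    · rw [h, mul_zero] at hr
      exact absurd hr (Nat.mul_pos p.2.pos q.2.pos).ne'
    · exact h
  have h8 := Nat.le_of_dvd hr0 h7
  rw [hr] at h8
  have h9 : 2 ≤ (p : ℕ) := p.2.two_le
  have h10 : 2 ≤ (q : ℕ) := q.2.two_le
  have h11 : r ≤ 1 := by
    by_contra h
    push Not at h
    nlinarith
  have h12 : r = 1 := by omega
  rw [h12, mul_one] at hr
  nlinarith

section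
variable {K : Type} [Field K] [NumberField K]

/-- totally complex quadratic fields in the algebraic closure -/
def QC (M : IntermediateField K (AlgebraicClosure K)) : Prop :=
  Module.finrank K M = 2 ∧ IsEmpty (M →+* ℝ)

theorem QC.fd {M : IntermediateField K (AlgebraicClosure K)} (h : QC M) :
    FiniteDimensional K M := FiniteDimensional.of_finrank_pos (by rw [h.1]; norm_num)

/-- a totally complex quadratic extension not contained in a given finite extension -/
theorem exists_QC (N : IntermediateField K (AlgebraicClosure K)) [FiniteDimensional K N] :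
    ∃ M : IntermediateField K (AlgebraicClosure K), QC M ∧ ¬ M ≤ N := by
  have hnf : NumberField N := NumberField.of_module_finite K N
  obtain ⟨p, hp, hne⟩ := exists_prime_not_sq N
  obtain ⟨y, hy⟩ := IsAlgClosed.exists_pow_nat_eq (-(p : AlgebraicClosure K)) (n := 2)
    (by norm_num)
  have hyN : y ∉ N := fun h => hne ⟨⟨y, h⟩, Subtype.ext (by
    change y ^ 2 = ((-(p : N) : N) : AlgebraicClosure K)
    rw [hy]
    push_cast
    rfl)⟩
  have hint : IsIntegral K y := Algebra.IsIntegral.isIntegral y
  have hfd : FiniteDimensional K K⟮y⟯ := IntermediateField.adjoin.finiteDimensional hint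
  have hle2 : Module.finrank K K⟮y⟯ ≤ 2 := by
    rw [IntermediateField.adjoin.finrank hint]
    have h1 : (Polynomial.X ^ 2 + Polynomial.C (p : K)).natDegree = 2 := by
      compute_degree!
    have hne0 : (Polynomial.X ^ 2 + Polynomial.C (p : K)) ≠ 0 := by
      intro h
      rw [h, Polynomial.natDegree_zero] at h1
      norm_num at h1
    rw [← h1]
    refine Polynomial.natDegree_le_of_dvd (minpoly.dvd K y ?_) hne0
    rw [map_add, map_pow, Polynomial.aeval_X, Polynomial.aeval_C, hy]
    simp
  have hne1 : Module.finrank K K⟮y⟯ ≠ 1 := by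
    intro h
    rw [IntermediateField.finrank_eq_one_iff, IntermediateField.adjoin_simple_eq_bot_iff] at h
    exact hyN ((bot_le : ⊥ ≤ N) h)
  have hpos : 0 < Module.finrank K K⟮y⟯ := Module.finrank_pos
  refine ⟨K⟮y⟯, ⟨by omega, ⟨fun j => ?_⟩⟩, fun h => hyN (h (mem_adjoin_simple_self K y))⟩
  have h1 : (⟨y, mem_adjoin_simple_self K y⟩ : K⟮y⟯) ^ 2 = -(p : K⟮y⟯) := by
    apply Subtype.ext
    change y ^ 2 = ((-(p : K⟮y⟯) : K⟮y⟯) : AlgebraicClosure K)
    rw [hy]
    push_cast
    rfl
  have h2 := congrArg j h1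
  rw [map_pow, map_neg, map_natCast] at h2
  have h3 : (0 : ℝ) < p := by exact_mod_cast hp.pos
  have h4 := sq_nonneg (j ⟨y, mem_adjoin_simple_self K y⟩)
  rw [h2] at h4
  linarith

/-- quadratic fields which are different are linearly disjoint -/
theorem disj_of_ne {M M' : IntermediateField K (AlgebraicClosure K)}
    (h : Module.finrank K M = 2) (h' : Module.finrank K M' = 2) (hne : ¬ M' ≤ M) :
    M.LinearDisjoint M' := by
  have hfd : FiniteDimensional K M := FiniteDimensional.of_finrank_pos (by rw [h]; norm_num)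
  have hfd' : FiniteDimensional K M' := FiniteDimensional.of_finrank_pos (by rw [h']; norm_num)
  have hq : Algebra.IsQuadraticExtension K M := { finrank_eq_two' := h }
  refine IntermediateField.LinearDisjoint.of_inf_eq_bot ?_
  by_contra hb
  have hfdi : FiniteDimensional K (M ⊓ M' : IntermediateField K (AlgebraicClosure K)) :=
    Module.Finite.of_injective (IntermediateField.inclusion
      (inf_le_left : M ⊓ M' ≤ M)).toLinearMap (IntermediateField.inclusion_injective
        (inf_le_left : M ⊓ M' ≤ M))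
  have h1 : Module.finrank K (M ⊓ M' : IntermediateField K (AlgebraicClosure K)) ≠ 1 := by
    rw [Ne, IntermediateField.finrank_eq_one_iff]
    exact hb
  have h2 : 0 < Module.finrank K (M ⊓ M' : IntermediateField K (AlgebraicClosure K)) :=
    Module.finrank_pos
  have h3 : M ⊓ M' = M' := IntermediateField.eq_of_le_of_finrank_le inf_le_right (by
    rw [h']
    omega)
  exact hne (by rw [← h3]; exact inf_le_left)

/-- infinitely many totally complex quadratic fields -/
theorem exists_QC_seq : ∃ F : ℕ → IntermediateField K (AlgebraicClosure K),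
    (∀ k, QC (F k)) ∧ ∀ k l, k ≠ l → (F k).LinearDisjoint (F l) := by
  obtain ⟨F, h1, h2⟩ := exists_seq_of_forall_finset_exists
    (P := fun M : IntermediateField K (AlgebraicClosure K) => QC M)
    (fun M M' => ¬ M' ≤ M) (by
      intro s hs
      have hfd : ∀ M : s, FiniteDimensional K (M : IntermediateField K (AlgebraicClosure K)) :=
        fun M => (hs M.1 M.2).fd
      have hfd2 : FiniteDimensional K
          (⨆ M : s, (M : IntermediateField K (AlgebraicClosure K)) :
            IntermediateField K (AlgebraicClosure K)) :=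
        IntermediateField.finiteDimensional_iSup_of_finite
      obtain ⟨M', h1, h2⟩ := exists_QC (⨆ M : s, (M : IntermediateField K (AlgebraicClosure K)) :
            IntermediateField K (AlgebraicClosure K))
      exact ⟨M', h1, fun M hM h => h2 (h.trans
        (le_iSup (fun M : s => (M : IntermediateField K (AlgebraicClosure K))) ⟨M, hM⟩))⟩)
  refine ⟨F, h1, fun k l hkl => ?_⟩
  rcases lt_or_gt_of_ne hkl with h | h
  · exact disj_of_ne (h1 k).1 (h1 l).1 (h2 k l h)
  · exact (disj_of_ne (h1 l).1 (h1 k).1 (h2 l k h)).symm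

end

section
open NumberField IsDedekindDomain Filter Topology Polynomial
open Pool.Agent.W353.EF (IsEulerSystem size)
open Pool.Agent.W353.TD (IsPart rank)

variable {K : Type} [Field K] [NumberField K] {n d m N : ℕ}
  {X : Set (MvPolynomial (Fin n) (𝓞 K))} {V : Type} [AddCommGroup V] [Module ℚ V]
  [FiniteDimensional ℚ V] {ρ : Representation ℚ Gal(AlgebraicClosure K/K) V}

/-- **Almost wide families.** -/
theorem weak_of_awide (hmd : m ≤ d) (hpart : IsPart X d m N ρ)
    [NumberField (⊥ : IntermediateField K (AlgebraicClosure K))]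
    {𝓕 : Set (IntermediateField K (AlgebraicClosure K))} (hF : Pool.Agent.Q246.RP.AWide 𝓕)
    (hW : ∀ F ∈ 𝓕, ∀ [NumberField F], Weak X d m N ρ F) :
    Weak X d m N ρ (⊥ : IntermediateField K (AlgebraicClosure K)) := by
  intro B hB
  obtain ⟨F, h1, h2⟩ := exists_QC_seq (K := K)
  have hfd : ∀ k, FiniteDimensional K (F k) := fun k => (h1 k).fd
  have hnf : ∀ k, NumberField (F k) := fun k => NumberField.of_module_finite K _
  refine weak_of_seq hmd hpart F h2 (fun k => (h1 k).1.ge)
    (fun k => weak_complex hmd hpart hF hW (h1 k).2 fun E _ => exists_sys bot_le hB) ?_ B hB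
  intro h
  have h3 : (fun k => 1 / ((Module.finrank K (F k) : ℝ) - 1)) = fun _ : ℕ => (1 : ℝ) := by
    funext k
    rw [(h1 k).1]
    norm_num
  rw [h3] at h
  exact one_ne_zero ((summable_const_iff (β := ℕ) (1 : ℝ)).1 h)

end

end Pool.Agent.Q246.TZ
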