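import Pool.Agent.Q246.TZ.Base

/-! Second moments of the permutation characters of linearly disjoint fields. -/

set_option autoImplicit false
set_option linter.unusedSectionVars false

namespace Pool.Agent.Q246.TZ

open NumberField
open Pool.Agent.W353.NF
open Pool.Agent.W353.L1 (avR avR_sq_le avR_const_mul)
open Pool.Agent.W401.Cheb (GK)
open scoped Classical

section
variable {K : Type} [Field K] [NumberField K] {U : Subgroup (GK K)} [U.Normal]
  [Finite (GK K ⧸ U)]

theorem avR_add (ψ φ : GK K ⧸ U → ℝ) :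
    avR U (fun q => ψ q + φ q) = avR U ψ + avR U φ := by
  have := Fintype.ofFinite (GK K ⧸ U)
  unfold avR
  rw [finsum_eq_sum_of_fintype, finsum_eq_sum_of_fintype, finsum_eq_sum_of_fintype,
    Finset.sum_add_distrib, mul_add]

theorem avR_sum {κ : Type} (s : Finset κ) (ψ : κ → GK K ⧸ U → ℝ) :
    avR U (fun q => ∑ k ∈ s, ψ k q) = ∑ k ∈ s, avR U (ψ k) := by
  induction s using Finset.induction_on with
  | empty =>
    simp only [Finset.sum_empty]
    unfold avR
    simp
  | insert a s ha ih =>
    rw [Finset.sum_insert ha, ← ih, ← avR_add]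
    congr 1
    funext q
    rw [Finset.sum_insert ha]

theorem avR_one : avR U (fun _ => (1 : ℝ)) = 1 := by
  have := Fintype.ofFinite (GK K ⧸ U)
  unfold avR
  rw [finsum_eq_sum_of_fintype, Finset.sum_const, Finset.card_univ, Nat.card_eq_fintype_card,
    nsmul_eq_mul, mul_one, inv_mul_cancel₀]
  exact_mod_cast Fintype.card_ne_zero

theorem avR_mono {ψ φ : GK K ⧸ U → ℝ} (h : ∀ q, ψ q ≤ φ q) : avR U ψ ≤ avR U φ := by
  have := Fintype.ofFinite (GK K ⧸ U)
  unfold avR
  rw [finsum_eq_sum_of_fintype, finsum_eq_sum_of_fintype]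
  exact mul_le_mul_of_nonneg_left (Finset.sum_le_sum fun q _ => h q) (by positivity)

variable {F F' : Type} [Field F] [NumberField F] [Algebra K F] [Field F'] [NumberField F']
  [Algebra K F']

theorem avR_fixn (hF : ∀ u ∈ U, act K F u = 1) : avR U (fun q => (fixn K F q.out : ℝ)) = 1 := by
  have hfin : Finite (F →ₐ[K] AlgebraicClosure K) := inferInstance
  let a : GK K ⧸ U →* Equiv.Perm (F →ₐ[K] AlgebraicClosure K) := QuotientGroup.lift U (act K F) hF
  have ha : ∀ q : GK K ⧸ U, a q = act K F q.out := by
    intro q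
    conv_lhs => rw [← QuotientGroup.out_eq' q]
    rfl
  have h1 := burnside a (fun x y => by
    obtain ⟨σ, hσ⟩ := act_trans K F x y
    exact ⟨(σ : GK K ⧸ U), hσ⟩)
  unfold avR
  have h2 : ∀ q : GK K ⧸ U, (fixn K F q.out : ℝ) =
      ((Nat.card {y // a q y = y} : ℕ) : ℝ) := by
    intro q
    rw [ha]
    rfl
  simp only [h2]
  rw [h1, inv_mul_cancel₀]
  exact_mod_cast Nat.card_pos.ne'

theorem avR_pair (hF : ∀ u ∈ U, act K F u = 1) (hF' : ∀ u ∈ U, act K F' u = 1)
    (ht : ∀ (x y : F →ₐ[K] AlgebraicClosure K) (x' y' : F' →ₐ[K] AlgebraicClosure K),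
      ∃ σ : GK K, act K F σ x = y ∧ act K F' σ x' = y') :
    avR U (fun q => (fixn K F q.out : ℝ) * fixn K F' q.out) = 1 := by
  have hfin : Finite (F →ₐ[K] AlgebraicClosure K) := inferInstance
  have hfin' : Finite (F' →ₐ[K] AlgebraicClosure K) := inferInstance
  let b : GK K →* Equiv.Perm ((F →ₐ[K] AlgebraicClosure K) × (F' →ₐ[K] AlgebraicClosure K)) :=
    { toFun := fun σ => Equiv.prodCongr (act K F σ) (act K F' σ)
      map_one' := by
        rw [map_one, map_one]
        rfl
      map_mul' := fun σ τ => by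
        rw [map_mul, map_mul]
        rfl }
  have hb : ∀ u ∈ U, b u = 1 := by
    intro u hu
    change Equiv.prodCongr (act K F u) (act K F' u) = 1
    rw [hF u hu, hF' u hu]
    rfl
  let a := QuotientGroup.lift U b hb
  have ha : ∀ q : GK K ⧸ U, a q = b q.out := by
    intro q
    conv_lhs => rw [← QuotientGroup.out_eq' q]
    rfl
  have hne : Nonempty ((F →ₐ[K] AlgebraicClosure K) × (F' →ₐ[K] AlgebraicClosure K)) :=
    inferInstance
  have h1 := burnside a (fun x y => by
    obtain ⟨σ, hσ, hσ'⟩ := ht x.1 y.1 x.2 y.2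
    exact ⟨(σ : GK K ⧸ U), Prod.ext hσ hσ'⟩)
  unfold avR
  have h2 : ∀ q : GK K ⧸ U, (fixn K F q.out : ℝ) * fixn K F' q.out =
      ((Nat.card {y // a q y = y} : ℕ) : ℝ) := by
    intro q
    rw [ha]
    unfold fixn
    rw [← Nat.cast_mul, ← Nat.card_prod]
    congr 1
    refine Nat.card_congr
      { toFun := fun x => ⟨(x.1.1, x.2.1), Prod.ext x.1.2 x.2.2⟩
        invFun := fun y => (⟨y.1.1, congrArg Prod.fst y.2⟩, ⟨y.1.2, congrArg Prod.snd y.2⟩)
        left_inv := fun _ => rfl
        right_inv := fun _ => rfl }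
  simp only [h2]
  rw [h1, inv_mul_cancel₀]
  exact_mod_cast Nat.card_pos.ne'

theorem fixn_le_finrank (σ : GK K) : (fixn K F σ : ℝ) ≤ Module.finrank K F := by
  have h1 : fixn K F σ ≤ Nat.card (F →ₐ[K] AlgebraicClosure K) := by
    unfold fixn
    exact Nat.card_le_card_of_injective Subtype.val Subtype.val_injective
  have h2 : Nat.card (F →ₐ[K] AlgebraicClosure K) = Module.finrank K F := by
    rw [Nat.card_eq_fintype_card]
    exact AlgHom.card K F (AlgebraicClosure K)
  rw [h2] at h1
  exact_mod_cast h1

theorem avR_sq (hF : ∀ u ∈ U, act K F u = 1) :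
    avR U (fun q => (fixn K F q.out : ℝ) * fixn K F q.out) ≤ Module.finrank K F := by
  have h1 : avR U (fun q => (fixn K F q.out : ℝ) * fixn K F q.out) ≤
      avR U (fun q => (Module.finrank K F : ℝ) * fixn K F q.out) :=
    avR_mono fun q => mul_le_mul_of_nonneg_right (fixn_le_finrank _) (Nat.cast_nonneg _)
  rw [avR_const_mul, avR_fixn hF, mul_one] at h1
  exact h1

end

section
variable {K : Type} [Field K] [NumberField K]

/-- the action on the pairs of embeddings of linearly disjoint fields is transitive -/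
theorem trans_pair {F F' : IntermediateField K (AlgebraicClosure K)} [NumberField F]
    [NumberField F'] (h : F.LinearDisjoint F')
    (x y : F →ₐ[K] AlgebraicClosure K) (x' y' : F' →ₐ[K] AlgebraicClosure K) :
    ∃ σ : GK K, act K F σ x = y ∧ act K F' σ x' = y' := by
  have hfd : FiniteDimensional K (F ⊔ F' : IntermediateField K (AlgebraicClosure K)) :=
    IntermediateField.finiteDimensional_sup F F'
  have hnf : NumberField (F ⊔ F' : IntermediateField K (AlgebraicClosure K)) :=
    NumberField.of_module_finite K _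
  let r : ((F ⊔ F' : IntermediateField K (AlgebraicClosure K)) →ₐ[K] AlgebraicClosure K) →
      (F →ₐ[K] AlgebraicClosure K) × (F' →ₐ[K] AlgebraicClosure K) := fun f =>
    (f.comp (IntermediateField.inclusion le_sup_left),
      f.comp (IntermediateField.inclusion le_sup_right))
  have hinj : Function.Injective r := by
    intro f g hfg
    have h1 : ∀ a : F, f (IntermediateField.inclusion le_sup_left a) =
        g (IntermediateField.inclusion le_sup_left a) := fun a =>
      DFunLike.congr_fun (congrArg Prod.fst hfg) a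
    have h2 : ∀ a : F', f (IntermediateField.inclusion le_sup_right a) =
        g (IntermediateField.inclusion le_sup_right a) := fun a =>
      DFunLike.congr_fun (congrArg Prod.snd hfg) a
    have hS : (F ⊔ F' : IntermediateField K (AlgebraicClosure K)) =
        IntermediateField.adjoin K ((F : Set (AlgebraicClosure K)) ∪ F') := by
      rw [IntermediateField.sup_def]
    refine IntermediateField.algHom_ext_of_eq_adjoin _ hS ?_
    intro z hz
    rcases hz with hz | hz
    · exact h1 ⟨z, hz⟩
    · exact h2 ⟨z, hz⟩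
  have hcard : Nat.card ((F ⊔ F' : IntermediateField K (AlgebraicClosure K)) →ₐ[K]
      AlgebraicClosure K) =
      Nat.card ((F →ₐ[K] AlgebraicClosure K) × (F' →ₐ[K] AlgebraicClosure K)) := by
    rw [Nat.card_prod, Nat.card_eq_fintype_card, Nat.card_eq_fintype_card,
      Nat.card_eq_fintype_card, AlgHom.card, AlgHom.card, AlgHom.card]
    exact h.finrank_sup
  have hbij : Function.Bijective r := by
    rw [Nat.bijective_iff_injective_and_card]
    exact ⟨hinj, hcard⟩
  obtain ⟨z, hz⟩ := hbij.2 (x, x')
  obtain ⟨z', hz'⟩ := hbij.2 (y, y')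
  obtain ⟨σ, hσ⟩ := act_trans K (F ⊔ F' : IntermediateField K (AlgebraicClosure K)) z z'
  have e1 := congrArg Prod.fst hz
  have e2 := congrArg Prod.snd hz
  have e3 := congrArg Prod.fst hz'
  have e4 := congrArg Prod.snd hz'
  change z.comp (IntermediateField.inclusion le_sup_left) = x at e1
  change z.comp (IntermediateField.inclusion le_sup_right) = x' at e2
  change z'.comp (IntermediateField.inclusion le_sup_left) = y at e3
  change z'.comp (IntermediateField.inclusion le_sup_right) = y' at e4
  rw [act_apply] at hσ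
  refine ⟨σ, ?_, ?_⟩
  · rw [act_apply, ← e1, ← e3, ← hσ]
    rfl
  · rw [act_apply, ← e2, ← e4, ← hσ]
    rfl

end

end Pool.Agent.Q246.TZ
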