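import Pool.Agent.Q246.TZ.Fam

/-! Sequences of disjoint fields; families with few missed automorphisms. -/

set_option autoImplicit false
set_option linter.unusedSectionVars false

namespace Pool.Agent.Q246.TZ

open NumberField IsDedekindDomain Filter Topology Polynomial
open Pool.Agent.W353.NF
open Pool.Agent.W353.EF (IsEulerSystem size)
open Pool.Agent.W353.TD (IsPart rank)
open Pool.Agent.W353.L1 (avR)
open Pool.Agent.W401.Cheb (GK)
open Pool.Agent.Q246.RP (AWide awide_relation phi IsCC card_fixed_of_isCC)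
open scoped Classical

section
variable {K : Type} [Field K] [NumberField K] {n d m N : ℕ}
  {X : Set (MvPolynomial (Fin n) (𝓞 K))} {V : Type} [AddCommGroup V] [Module ℚ V]
  [FiniteDimensional ℚ V] {ρ : Representation ℚ Gal(AlgebraicClosure K/K) V}

/-- **Infinite sequences of linearly disjoint extensions.** -/
theorem weak_of_seq (hmd : m ≤ d) (hpart : IsPart X d m N ρ)
    [NumberField (⊥ : IntermediateField K (AlgebraicClosure K))]
    (F : ℕ → IntermediateField K (AlgebraicClosure K))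
    [∀ k, NumberField (F k)] (hdis : ∀ k l, k ≠ l → (F k).LinearDisjoint (F l))
    (hd : ∀ k, 2 ≤ Module.finrank K (F k)) (hW : ∀ k, Weak X d m N ρ (F k))
    (hsum : ¬ Summable fun k => 1 / ((Module.finrank K (F k) : ℝ) - 1)) :
    Weak X d m N ρ (⊥ : IntermediateField K (AlgebraicClosure K)) := by
  intro B hB
  have hpos : ∀ k, 0 ≤ 1 / ((Module.finrank K (F k) : ℝ) - 1) := by
    intro k
    have : (2 : ℝ) ≤ Module.finrank K (F k) := by exact_mod_cast hd k
    have : (0 : ℝ) < (Module.finrank K (F k) : ℝ) - 1 := by linarith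
    positivity
  have htend := (not_summable_iff_tendsto_nat_atTop_of_nonneg hpos).1 hsum
  rw [Metric.tendsto_nhds]
  intro η hη
  set s : ℝ := ((N - Module.finrank ℚ V : ℕ) : ℝ) with hs
  have hs0 : 0 ≤ s := Nat.cast_nonneg _
  have h1 : Tendsto (fun T : ℕ => s * (1 / √(1 + ∑ k ∈ Finset.range T,
      1 / ((Module.finrank K (F k) : ℝ) - 1)))) atTop (𝓝 0) := by
    have h2 : Tendsto (fun T : ℕ => √(1 + ∑ k ∈ Finset.range T,
      1 / ((Module.finrank K (F k) : ℝ) - 1))) atTop atTop :=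
      Real.tendsto_sqrt_atTop.comp (tendsto_atTop_add_const_left _ 1 htend)
    have h3 := (tendsto_const_nhds (x := s)).mul (tendsto_inv_atTop_zero.comp h2)
    rw [mul_zero] at h3
    refine h3.congr fun T => ?_
    rw [one_div]
    rfl
  obtain ⟨T, hT⟩ := (h1.eventually_lt_const (half_pos hη)).exists
  have h2 := disj_bound hmd hpart (κ := Fin T) (fun k => F k)
    (fun k l hkl => hdis k l fun h => hkl (Fin.ext h)) (fun k => hd k) (fun k => hW k) hB
    (η := η / 4) (by positivity)
  have h3 : sumInv (fun k : Fin T => F k) = ∑ k ∈ Finset.range T,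
      1 / ((Module.finrank K (F k) : ℝ) - 1) := by
    unfold sumInv
    rw [Finset.sum_range]
  rw [h3] at h2
  filter_upwards [h2] with ε hε
  rw [Real.dist_eq]
  linarith

/-- the bound for a family closed under enlarging -/
theorem family_bound (hmd : m ≤ d) (hpart : IsPart X d m N ρ)
    [NumberField (⊥ : IntermediateField K (AlgebraicClosure K))]
    {𝓕 : Set (IntermediateField K (AlgebraicClosure K))} (hF : Up 𝓕)
    (hW : ∀ F ∈ 𝓕, ∀ [NumberField F], Weak X d m N ρ F)
    (L : IntermediateField K (AlgebraicClosure K)) [FiniteDimensional K L] [Normal K L]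
    {B : HeightOneSpectrum (𝓞 (⊥ : IntermediateField K (AlgebraicClosure K))) → ℂ[X]}
    (hB : IsEulerSystem X d (2 * m) N B) {η : ℝ} (hη : 0 < η) :
    ∀ᶠ ε : ℝ in 𝓝[>] 0, |size (2 * m) B ε -
      rank ρ (⊥ : IntermediateField K (AlgebraicClosure K))| ≤
      ((N - Module.finrank ℚ V : ℕ) : ℝ) *
        ((Nat.card (Missed 𝓕 L) : ℝ) / Nat.card (L ≃ₐ[K] L)) + η := by
  obtain ⟨κ, hκ, E, c, hE, hrel⟩ := fam_relation hF L
  have hnf : ∀ j, NumberField (E j) := fun j =>
    have := hF.1 _ (hE j).1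
    NumberField.of_module_finite K _
  let Φ : GK K →* (L ≃ₐ[K] L) := AlgEquiv.restrictNormalHom L
  have hU : Φ.ker = L.fixingSubgroup := IntermediateField.restrictNormalHom_ker L
  have hopen : IsOpen (Φ.ker : Set (GK K)) := by
    rw [hU]
    exact L.fixingSubgroup_isOpen
  have hfin : Finite (GK K ⧸ Φ.ker) := Subgroup.quotient_finite_of_isOpen _ hopen
  have hker : ∀ j, ∀ u ∈ Φ.ker, act K (E j) u = 1 := by
    intro j u hu
    rw [hU] at hu
    exact act_one (hE j).2 u hu
  have hsurj : Function.Surjective Φ := AlgEquiv.restrictNormalHom_surjective (AlgebraicClosure K)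
  have hav : avR Φ.ker (fun q => |1 - ∑ j, c j * (fixn K (E j) q.out : ℝ)|) ≤
      (Nat.card (Missed 𝓕 L) : ℝ) / Nat.card (L ≃ₐ[K] L) := by
    have h1 : avR Φ.ker (fun q => |1 - ∑ j, c j * (fixn K (E j) q.out : ℝ)|) ≤
        avR Φ.ker (fun q => if Φ q.out ∈ Missed 𝓕 L then (1 : ℝ) else 0) :=
      avR_mono fun q => hrel q.out
    have h0 := avR_ker Φ (fun g : L ≃ₐ[K] L => if g ∈ Missed 𝓕 L then (1 : ℝ) else 0)
    refine h1.trans ((le_of_eq h0).trans (le_of_eq ?_))
    have hr : Φ.range = ⊤ := MonoidHom.range_eq_top.2 hsurj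
    have hc1 : Nat.card Φ.range = Nat.card (L ≃ₐ[K] L) := by
      rw [hr]
      exact Nat.card_congr (Subgroup.topEquiv (G := L ≃ₐ[K] L)).toEquiv
    have hc2 : ∑ᶠ h : Φ.range, (if (h : L ≃ₐ[K] L) ∈ Missed 𝓕 L then (1 : ℝ) else 0) =
        ∑ᶠ g : L ≃ₐ[K] L, (if g ∈ Missed 𝓕 L then (1 : ℝ) else 0) := by
      refine finsum_eq_of_bijective (fun h : Φ.range => (h : L ≃ₐ[K] L))
        ⟨Subtype.val_injective, fun g => ⟨⟨g, hsurj g⟩, rfl⟩⟩ fun _ => rfl
    rw [hc2, hc1, finsum_eq_sum_of_fintype, Finset.sum_boole, inv_mul_eq_div]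
    congr 1
    rw [Nat.card_eq_fintype_card, Fintype.card_subtype]
  filter_upwards [dist_ineq hmd hpart Φ.ker hopen E hker (fun j => hW _ (hE j).1) c hB hη]
    with ε hε
  refine hε.trans ?_
  have := mul_le_mul_of_nonneg_left hav
    (Nat.cast_nonneg (N - Module.finrank ℚ V) : (0 : ℝ) ≤ _)
  linarith

/-- a relation with fields for which the weak form holds -/
theorem weak_of_relation (hmd : m ≤ d) (hpart : IsPart X d m N ρ)
    {F : IntermediateField K (AlgebraicClosure K)} [NumberField F]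
    {κ : Type} [Fintype κ] (E : κ → IntermediateField K (AlgebraicClosure K))
    [∀ k, NumberField (E k)] (hW : ∀ k, Weak X d m N ρ (E k)) (c : κ → ℝ)
    (hrel : ∀ σ : GK K, (fixn K F σ : ℝ) = ∑ j, c j * (fixn K (E j) σ : ℝ))
    (hsys : ∀ B : HeightOneSpectrum (𝓞 F) → ℂ[X], IsEulerSystem X d (2 * m) N B →
      ∀ k, ∃ B' : HeightOneSpectrum (𝓞 (E k)) → ℂ[X], IsEulerSystem X d (2 * m) N B') :
    Weak X d m N ρ F := by
  intro B hB
  choose B' hB' using hsys B hB
  let F₁ : Option κ → IntermediateField K (AlgebraicClosure K) := fun k => k.elim F E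
  have hnf : ∀ k, NumberField (F₁ k) := by
    rintro (_ | k)
    · exact (inferInstance : NumberField F)
    · exact (inferInstance : NumberField (E k))
  have hfd : ∀ k, FiniteDimensional K (F₁ k) := fun k => inferInstance
  let c₁ : Option κ → ℝ := fun k => k.elim 1 fun k => - c k
  let B₁ : ∀ k, HeightOneSpectrum (𝓞 (F₁ k)) → ℂ[X] := fun k =>
    match k with
    | none => B
    | some k => B' k
  obtain ⟨L, hL, hLn, hle⟩ := exists_normal F₁ hfd
  have hn := normal_fix L
  have hopen : IsOpen (L.fixingSubgroup : Set (GK K)) := L.fixingSubgroup_isOpen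
  have hfin : Finite (GK K ⧸ L.fixingSubgroup) := Subgroup.quotient_finite_of_isOpen _ hopen
  have hker : ∀ k, ∀ u ∈ L.fixingSubgroup, act K (F₁ k) u = 1 := fun k => act_one (hle k)
  have h6 : ∀ q : GK K ⧸ L.fixingSubgroup, |∑ k, c₁ k * (fixn K (F₁ k) q.out : ℝ)| = 0 := by
    intro q
    rw [Fintype.sum_option]
    change |1 * (fixn K F q.out : ℝ) + ∑ k, (- c k) * (fixn K (E k) q.out : ℝ)| = _
    simp only [neg_mul]
    rw [Finset.sum_neg_distrib, one_mul, hrel, add_neg_cancel, abs_zero]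
  have h2 : Tendsto (fun ε : ℝ => ∑ k, c k * (size (2 * m) (B' k) ε - rank ρ (E k))) (𝓝[>] 0)
      (𝓝 0) := by
    have h3 : ∀ k ∈ (Finset.univ : Finset κ),
        Tendsto (fun ε : ℝ => c k * (size (2 * m) (B' k) ε - rank ρ (E k))) (𝓝[>] 0) (𝓝 0) := by
      intro k _
      have h4 := ((hW k (B' k) (hB' k)).sub_const (rank ρ (E k) : ℝ)).const_mul (c k)
      rwa [sub_self, mul_zero] at h4
    have h5 := tendsto_finsetSum Finset.univ h3
    rwa [Finset.sum_const_zero] at h5
  have h7 : Tendsto (fun ε : ℝ => (size (2 * m) B ε - rank ρ F) -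
      ∑ k, c k * (size (2 * m) (B' k) ε - rank ρ (E k))) (𝓝[>] 0) (𝓝 0) := by
    rw [Metric.tendsto_nhds]
    intro η hη
    have h1 := tate_ineq hmd hpart L.fixingSubgroup hopen F₁ hker B₁ (by
      rintro (_ | k)
      · exact hB
      · exact hB' k) c₁ (half_pos hη)
    simp only [h6] at h1
    have h8 : avR L.fixingSubgroup (fun _ : GK K ⧸ L.fixingSubgroup => (0 : ℝ)) = 0 := by
      unfold avR
      rw [finsum_zero, mul_zero]
    rw [h8, mul_zero, zero_add] at h1
    filter_upwards [h1] with ε hε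
    rw [Fintype.sum_option] at hε
    change |1 * (size (2 * m) B ε - rank ρ F) +
      ∑ k, (- c k) * (size (2 * m) (B' k) ε - rank ρ (E k))| ≤ _ at hε
    simp only [neg_mul] at hε
    rw [Finset.sum_neg_distrib, one_mul, ← sub_eq_add_neg] at hε
    rw [Real.dist_eq, sub_zero]
    linarith
  have h8 := (h7.add h2).add_const (rank ρ F : ℝ)
  simp only [add_zero, zero_add, sub_add_cancel] at h8
  exact h8

/-- the totally complex fields -/
theorem weak_complex (hmd : m ≤ d) (hpart : IsPart X d m N ρ)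
    {𝓕 : Set (IntermediateField K (AlgebraicClosure K))} (hF : AWide 𝓕)
    (hW : ∀ F ∈ 𝓕, ∀ [NumberField F], Weak X d m N ρ F)
    {F : IntermediateField K (AlgebraicClosure K)} [NumberField F] (hr : IsEmpty (F →+* ℝ))
    (hsys : ∀ (E : IntermediateField K (AlgebraicClosure K)) [NumberField E],
      ∃ B' : HeightOneSpectrum (𝓞 E) → ℂ[X], IsEulerSystem X d (2 * m) N B') :
    Weak X d m N ρ F := by
  obtain ⟨κ, hκ, E, a, t, ht, hE, hrel⟩ := awide_relation hF
    (fun _ : Unit => Pool.Agent.Q5.BR.Ext.mk F) (fun _ => 1) (by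
      intro σ hσ
      obtain ⟨r, hr'⟩ := card_fixed_of_isCC hσ
      have h1 : fixn K F σ = Nat.card {j : F →+* ℝ // j.comp (algebraMap K F) = r} := hr' F
      have h2 : fixn K F σ = 0 := by
        rw [h1]
        exact Nat.card_of_isEmpty
      unfold phi
      rw [Fintype.sum_unique]
      change (1 : ℤ) * (fixn K F σ : ℤ) = 0
      rw [h2, Nat.cast_zero, mul_zero])
  have hnf : ∀ j, NumberField (E j) := fun j =>
    have := hF.1 _ (hE j)
    NumberField.of_module_finite K _
  have ht' : (t : ℝ) ≠ 0 := by exact_mod_cast ht.ne'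
  refine weak_of_relation hmd hpart E (fun j => hW _ (hE j)) (fun j => (a j : ℝ) / t)
    (fun σ => ?_) (fun B _ k => hsys (E k))
  have h1 := hrel σ
  unfold phi at h1
  rw [Fintype.sum_unique] at h1
  change (t : ℤ) * ((1 : ℤ) * (fixn K F σ : ℤ)) = _ at h1
  rw [one_mul] at h1
  have h2 : (t : ℝ) * (fixn K F σ : ℝ) = ∑ j, (a j : ℝ) * (fixn K (E j) σ : ℝ) := by
    exact_mod_cast h1
  have h3 : ∑ j, (a j : ℝ) / t * (fixn K (E j) σ : ℝ) =
      (t : ℝ)⁻¹ * ∑ j, (a j : ℝ) * (fixn K (E j) σ : ℝ) := by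
    rw [Finset.mul_sum]
    exact Finset.sum_congr rfl fun j _ => by ring
  rw [h3, ← h2, inv_mul_cancel_left₀ ht']

end

end Pool.Agent.Q246.TZ
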